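import Pool.Agent.H683.SC.PosStm

/-!
# The recursion with numbers equals the state sum (`S_WZ`)
-/

set_option autoImplicit false

namespace Pool.Agent.H578.SPWZ

open Pool.Agent.H683.SC

/-- The restricted state sums are not negative. -/
theorem Zt_nonneg {q : ℕ} (t : KExp) (S : ℕ → Fin q → Prop) (X : ℕ) :
    0 ≤ Zt t S (X : ℤ) := by
  unfold Zt
  refine Finset.sum_nonneg fun f _ => ?_
  split_ifs with h
  · refine Finset.prod_nonneg fun v _ => ?_
    split_ifs <;> positivity
  · exact le_rfl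

/-- Codes on `Fin q` for `up2`. -/
theorem cod_zero {q : ℕ} : (fun c : Fin q => cod 0 (c : ℕ)) = noc := by
  funext c
  simp [cod, noc]

theorem cod_succ {q : ℕ} (c : Fin q) : (fun d : Fin q => cod ((c : ℕ) + 2) (d : ℕ)) = onc c := by
  funext d
  simp only [cod, onc, eq_iff_iff]
  constructor
  · rintro (h | h)
    · omega
    · exact Fin.ext (by omega)
  · rintro rfl
    exact Or.inr rfl

/-- The number of colors allowed by a code. -/
theorem card_cod (q s : ℕ) (hs : s < q + 2) [DecidablePred fun c : Fin q => cod s (c : ℕ)] :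
    (Finset.univ.filter fun c : Fin q => cod s (c : ℕ)).card = szS q s := by
  unfold szS
  split_ifs with h0 h1
  · subst h0
    rw [Finset.card_eq_zero, Finset.filter_eq_empty_iff]
    intro c _
    simp [cod]
  · subst h1
    rw [Finset.filter_true_of_mem]
    · simp
    · intro c _
      exact Or.inl rfl
  · rw [Finset.card_eq_one]
    refine ⟨⟨s - 2, by omega⟩, ?_⟩
    ext c
    rw [Finset.mem_filter]
    simp only [Finset.mem_univ, true_and, Finset.mem_singleton]
    unfold cod
    constructor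
    · rintro (h | h)
      · exact absurd h h1
      · exact Fin.ext (by simp; omega)
    · rintro rfl
      right
      simp
      omega

/-- The states as restrictions. -/
def Sof (D : List ℕ) (q : ℕ) (σ : List ℕ) : ℕ → Fin q → Prop :=
  fun l c => cod (σ.getD (D.idxOf l) 0) c

theorem idxOf_ne {D : List ℕ} {a l : ℕ} (ha : a ∈ D) (h : l ≠ a) : D.idxOf a ≠ D.idxOf l := by
  intro e
  have hl : D.idxOf l < D.length := e ▸ List.idxOf_lt_length_of_mem ha
  have hl' : l ∈ D := List.idxOf_lt_length_iff.1 hl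
  have h1 := List.getElem_idxOf (x := a) (xs := D) (List.idxOf_lt_length_of_mem ha)
  have h2 := List.getElem_idxOf (x := l) (xs := D) hl
  apply h
  rw [← h1, ← h2]
  simp only [e]

theorem getD_set_self (σ : List ℕ) (i x : ℕ) (hi : i < σ.length) : (σ.set i x).getD i 0 = x := by
  rw [List.getD_eq_getElem _ _ (by simpa using hi)]
  simp

theorem getD_set_ne (σ : List ℕ) (i j x : ℕ) (h : i ≠ j) :
    (σ.set i x).getD j 0 = σ.getD j 0 := by
  simp only [List.getD_eq_getElem?_getD]
  rw [List.getElem?_set_ne h]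

theorem Sof_set {D : List ℕ} {q : ℕ} {σ : List ℕ} {a x : ℕ} (ha : a ∈ D)
    (hσ : σ.length = D.length) :
    Sof D q (σ.set (D.idxOf a) x) = Function.update (Sof D q σ) a (fun c => cod x c) := by
  funext l
  by_cases h : l = a
  · subst h
    rw [Function.update_self]
    funext c
    unfold Sof
    rw [getD_set_self _ _ _ (by rw [hσ]; exact List.idxOf_lt_length_of_mem ha)]
  · rw [Function.update_of_ne h]
    funext c
    unfold Sof
    rw [getD_set_ne _ _ _ _ (idxOf_ne ha h)]

theorem Sof_set2 {D : List ℕ} {q : ℕ} {σ : List ℕ} {a b x y : ℕ} (ha : a ∈ D) (hb : b ∈ D)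
    (hσ : σ.length = D.length) :
    Sof D q ((σ.set (D.idxOf a) x).set (D.idxOf b) y) =
      up2 (Sof D q σ) a b (fun c => cod x c) (fun c => cod y c) := by
  rw [Sof_set hb (by simpa using hσ), Sof_set ha hσ]
  rfl

theorem StOk_set {kk : ℕ} {σ : List ℕ} (h : StOk kk σ) (i x : ℕ) (hx : x < kk + 2) :
    StOk kk (σ.set i x) := by
  refine ⟨by simpa using h.1, fun s hs => ?_⟩
  rcases List.mem_or_eq_of_mem_set hs with h1 | h1
  · exact h.2 s h1
  · rw [h1]; exact hx

theorem StOk_getD {kk : ℕ} {σ : List ℕ} (h : StOk kk σ) (i : ℕ) : σ.getD i 0 < kk + 2 := by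
  by_cases hi : i < σ.length
  · rw [List.getD_eq_getElem _ _ hi]
    exact h.2 _ (List.getElem_mem hi)
  · rw [List.getD_eq_default _ _ (by omega)]
    omega

/-- The join recursion, as an identity of integers. -/
theorem jn_cast (N : ℕ → ℕ → ℕ) (x y : ℕ) (cs : List (ℕ × ℕ))
    (h : 0 ≤ ((N 0 y : ℤ) + N x 0 - N 0 0 + (cs.map fun c => (c.2 : ℤ) *
      ((N (c.1 + 2) (c.1 + 2) : ℤ) - N (c.1 + 2) 0 - N 0 (c.1 + 2) + N 0 0)).sum)) :
    (jn N x y cs : ℤ) = (N 0 y : ℤ) + N x 0 - N 0 0 + (cs.map fun c => (c.2 : ℤ) *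
      ((N (c.1 + 2) (c.1 + 2) : ℤ) - N (c.1 + 2) 0 - N 0 (c.1 + 2) + N 0 0)).sum := by
  have key : (cs.map fun c => (c.2 : ℤ) *
      ((N (c.1 + 2) (c.1 + 2) : ℤ) - N (c.1 + 2) 0 - N 0 (c.1 + 2) + N 0 0)).sum =
      (((cs.map fun c => c.2 * (N (c.1 + 2) (c.1 + 2) + N 0 0)).sum : ℕ) : ℤ) -
        (((cs.map fun c => c.2 * (N (c.1 + 2) 0 + N 0 (c.1 + 2))).sum : ℕ) : ℤ) := by
    clear h
    induction cs with
    | nil => simp
    | cons c cs ih =>
      simp only [List.map_cons, List.sum_cons, ih]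
      push_cast
      ring
  rw [key] at h ⊢
  unfold jn
  rw [Nat.cast_sub (by omega)]
  push_cast
  ring

/-- The sum over the colors. -/
theorem cols_sum (kk q x y fr : ℕ) (hkq : kk ≤ q) (hx : x < kk + 2) (hy : y < kk + 2) (T : ℕ → ℤ)
    (hfr : x = 1 → y = 1 → fr < kk)
    (hT : x = 1 → y = 1 → ∀ c, kk ≤ c → c < q → T c = T fr)
    [∀ c : Fin q, Decidable (cod x (c : ℕ) ∧ cod y (c : ℕ))] :
    ∑ c : Fin q, (if cod x (c : ℕ) ∧ cod y (c : ℕ) then T c else 0) =
      ((cols kk q x y fr).map fun c => (c.2 : ℤ) * T c.1).sum := by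
  have one : ∀ z, z < kk + 2 → 2 ≤ z → (∀ c : Fin q, (cod x (c : ℕ) ∧ cod y (c : ℕ)) ↔
      (c : ℕ) = z - 2) →
      ∑ c : Fin q, (if cod x (c : ℕ) ∧ cod y (c : ℕ) then T c else 0) = T (z - 2) := by
    intro z hz hz2 hc
    rw [Finset.sum_eq_single (⟨z - 2, by omega⟩ : Fin q)]
    · rw [if_pos ((hc _).2 rfl)]
    · intro c _ hne
      rw [if_neg]
      intro h
      exact hne (Fin.ext ((hc c).1 h))
    · intro h
      exact absurd (Finset.mem_univ _) h
  have zero : (∀ c : Fin q, ¬ (cod x (c : ℕ) ∧ cod y (c : ℕ))) →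
      ∑ c : Fin q, (if cod x (c : ℕ) ∧ cod y (c : ℕ) then T c else 0) = 0 := by
    intro h
    exact Finset.sum_eq_zero fun c _ => if_neg (h c)
  unfold cols
  by_cases h0 : x = 0 ∨ y = 0
  · rw [if_pos h0, zero]
    · simp
    · intro c hc
      rcases h0 with h | h
      · have := hc.1; unfold cod at this; omega
      · have := hc.2; unfold cod at this; omega
  rw [if_neg h0]
  by_cases h1 : x = 1
  · rw [if_pos h1]
    by_cases h2 : y = 1
    · rw [if_pos h2]
      have e1 : ∑ c : Fin q, (if cod x (c : ℕ) ∧ cod y (c : ℕ) then T c else 0) =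
          ∑ c ∈ Finset.range q, T c := by
        rw [← Fin.sum_univ_eq_sum_range (fun c => T c) q]
        refine Finset.sum_congr rfl fun c _ => ?_
        rw [if_pos ⟨Or.inl h1, Or.inl h2⟩]
      rw [e1]
      have e2 : ∑ c ∈ Finset.range q, T c =
          ∑ c ∈ Finset.range kk, T c + ((q - kk : ℕ) : ℤ) * T fr := by
        rw [← Finset.sum_range_add_sum_Ico _ hkq]
        congr 1
        rw [Finset.sum_congr rfl (g := fun _ => T fr)
          (fun c hc => hT h1 h2 c (Finset.mem_Ico.1 hc).1 (Finset.mem_Ico.1 hc).2)]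
        simp
      rw [e2, List.map_map]
      have e3 : ∀ n, (List.map ((fun c : ℕ × ℕ => (c.2 : ℤ) * T c.1) ∘
          fun c => (c, if c = fr then 1 + (q - kk) else 1)) (List.range n)).sum =
          ∑ c ∈ Finset.range n, (T c + if c = fr then ((q - kk : ℕ) : ℤ) * T fr else 0) := by
        intro n
        induction n with
        | zero => simp
        | succ n ihn =>
          rw [List.range_succ, List.map_append, List.sum_append, ihn, Finset.sum_range_succ]
          congr 1
          by_cases hn : n = fr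
          · subst hn
            simp
            ring
          · simp [hn]
      rw [e3, Finset.sum_add_distrib, Finset.sum_ite_eq' (Finset.range kk) fr,
        if_pos (Finset.mem_range.2 (hfr h1 h2))]
    · rw [if_neg h2, one y hy (by omega)]
      · simp
      · intro c
        unfold cod
        omega
  · rw [if_neg h1]
    by_cases h3 : y = 1 ∨ x = y
    · rw [if_pos h3, one x hx (by omega)]
      · simp
      · intro c
        unfold cod
        omega
    · rw [if_neg h3, zero]
      · simp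
      · intro c
        unfold cod
        omega

/-- The color `frs` is new. -/
theorem frs_spec {kk : ℕ} {σ : List ℕ} (hσ : σ.length = kk) (h0 : 0 ∈ σ) :
    frs kk σ < kk ∧ frs kk σ + 2 ∉ σ := by
  have hex : ∃ c ∈ List.range kk, (!decide (c + 2 ∈ σ)) = true := by
    by_contra hno
    push Not at hno
    have hall : ∀ c < kk, c + 2 ∈ σ := by
      intro c hc
      have := hno c (List.mem_range.2 hc)
      simpa using this
    have hsub : insert 0 ((Finset.range kk).image (· + 2)) ⊆ σ.toFinset := by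
      intro z hz
      rw [Finset.mem_insert, Finset.mem_image] at hz
      rcases hz with rfl | ⟨c, hc, rfl⟩
      · exact List.mem_toFinset.2 h0
      · exact List.mem_toFinset.2 (hall c (Finset.mem_range.1 hc))
    have h1 := Finset.card_le_card hsub
    have h2 := List.toFinset_card_le σ
    rw [Finset.card_insert_of_notMem (by simp), Finset.card_image_of_injective _
      (fun a b h => by simpa using h), Finset.card_range] at h1
    omega
  obtain ⟨c, hc, hcs⟩ := hex
  unfold frs
  have hs : ((List.range kk).find? fun c => !decide (c + 2 ∈ σ)).isSome := by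
    rw [List.find?_isSome]
    exact ⟨c, hc, hcs⟩
  obtain ⟨d, hd⟩ := Option.isSome_iff_exists.1 hs
  rw [hd]
  constructor
  · exact List.mem_range.1 (List.mem_of_find?_eq_some hd)
  · have := List.find?_some hd
    simpa using this

/-- Two fresh colors can be exchanged. -/
theorem swap_colors (hP : S_ZP) {q : ℕ} (t : KExp) (S : ℕ → Fin q → Prop) (X : ℤ) (a b : ℕ)
    (c d : Fin q) (A B : Fin q → Fin q → Prop)
    (hS : ∀ l, l ≠ a → l ≠ b → (S l c ↔ S l d))
    (hA : ∀ e, A d (Equiv.swap c d e) ↔ A c e) (hB : ∀ e, B d (Equiv.swap c d e) ↔ B c e)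
    (hab : a ≠ b) :
    Zt t (up2 S a b (A c) (B c)) X = Zt t (up2 S a b (A d) (B d)) X := by
  rw [← hP q t (up2 S a b (A d) (B d)) X (Equiv.swap c d)]
  congr 1
  funext l e
  unfold up2
  by_cases hb : l = b
  · subst hb
    simp only [Function.update_self]
    exact propext (hB e).symm
  · rw [Function.update_of_ne hb, Function.update_of_ne hb]
    by_cases ha : l = a
    · subst ha
      simp only [Function.update_self]
      exact propext (hA e).symm
    · rw [Function.update_of_ne ha, Function.update_of_ne ha]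
      by_cases h1 : e = c
      · subst h1
        rw [Equiv.swap_apply_left]
        exact propext (hS l ha hb)
      · by_cases h2 : e = d
        · subst h2
          rw [Equiv.swap_apply_right]
          exact propext (hS l ha hb).symm
        · rw [Equiv.swap_apply_of_ne_of_ne h1 h2]

theorem cols_mem {kk q x y fr : ℕ} (hx : x < kk + 2) (hy : y < kk + 2) {c : ℕ × ℕ}
    (h : c ∈ cols kk q x y fr) : c.1 < kk := by
  unfold cols at h
  split_ifs at h with h0 h1 h2 h3
  · simp at h
  · rw [List.mem_map] at h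
    obtain ⟨d, hd, rfl⟩ := h
    exact List.mem_range.1 hd
  · rw [List.mem_singleton] at h
    rw [h]
    show y - 2 < kk
    omega
  · rw [List.mem_singleton] at h
    rw [h]
    show x - 2 < kk
    omega
  · simp at h

theorem WZ : S_ZV → S_ZR → S_ZU → S_ZJ → S_ZP → S_WZ := by
  classical
  intro hV hR hU hJ hP D X q k t
  induction t with
  | vtx a =>
    intro σ hD hok hl hq hσ
    rw [hV q a]
    have hs := StOk_getD hσ (D.idxOf a)
    have hc := card_cod q (σ.getD (D.idxOf a) 0) (by omega)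
    unfold W
    push_cast
    congr 2
    exact_mod_cast hc.symm
  | union s t ihs iht =>
    intro σ hD hok hl hq hσ
    rw [hU q s t]
    unfold W
    push_cast
    rw [ihs σ hD hok.1 (fun a ha => hl a (by simp [KExp.lbs, ha])) hq hσ,
      iht σ hD hok.2 (fun a ha => hl a (by simp [KExp.lbs, ha])) hq hσ]
  | relab a b t ih =>
    intro σ hD hok hl hq hσ
    rw [hR q a b t]
    have haD : a ∈ D := hl a (by simp [KExp.lbs])
    unfold W
    rw [ih _ hD hok.2.2 (fun a ha => hl a (by simp [KExp.lbs, ha])) hq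
      (StOk_set hσ _ _ (StOk_getD hσ _))]
    congr 1
    exact Sof_set haD hσ.1
  | join a b t ih =>
    intro σ hD hok hl hq hσ
    have haD : a ∈ D := hl a (by simp [KExp.lbs])
    have hbD : b ∈ D := hl b (by simp [KExp.lbs])
    have hab : a ≠ b := hok.2.2.1
    rw [hJ q a b t _ _ hab]
    have IH : ∀ x y, x < D.length + 2 → y < D.length + 2 →
        (W D X q t ((σ.set (D.idxOf a) x).set (D.idxOf b) y) : ℤ) =
          Zt (q := q) t (up2 (Sof D q σ) a b (fun c => cod x c) (fun c => cod y c)) X := by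
      intro x y hx hy
      rw [ih _ hD hok.2.2.2 (fun a ha => hl a (by simp [KExp.lbs, ha])) hq
        (StOk_set (StOk_set hσ _ _ hx) _ _ hy), ← Sof_set2 haD hbD hσ.1]
      rfl
    have hi : D.idxOf a < D.length := List.idxOf_lt_length_of_mem haD
    have hj : D.idxOf b < D.length := List.idxOf_lt_length_of_mem hbD
    have hx := StOk_getD hσ (D.idxOf a)
    have hy := StOk_getD hσ (D.idxOf b)
    -- the restricted state sums
    obtain ⟨F, hF⟩ : ∃ F : ℕ → ℕ → ℤ, ∀ x y, F x y =
        Zt (q := q) t (up2 (Sof D q σ) a b (fun c => cod x c) (fun c => cod y c)) X :=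
      ⟨_, fun _ _ => rfl⟩
    obtain ⟨T, hTd⟩ : ∃ T : ℕ → ℤ, ∀ c, T c =
        F (c + 2) (c + 2) - F (c + 2) 0 - F 0 (c + 2) + F 0 0 := ⟨_, fun _ => rfl⟩
    -- the fresh color
    have hfr := frs_spec (kk := D.length)
      (σ := (σ.set (D.idxOf a) 0).set (D.idxOf b) 0) (by simpa using hσ.1) (by
        rw [List.mem_iff_getElem]
        refine ⟨D.idxOf b, by simpa [hσ.1] using hj, by simp⟩)
    have hfresh : ∀ l, l ≠ a → l ≠ b →
        σ.getD (D.idxOf l) 0 ≠ frs D.length ((σ.set (D.idxOf a) 0).set (D.idxOf b) 0) + 2 := by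
      intro l hla hlb e
      by_cases hlt : D.idxOf l < σ.length
      · apply hfr.2
        rw [← e, ← getD_set_ne _ _ _ 0 (idxOf_ne haD hla), ← getD_set_ne _ _ _ 0 (idxOf_ne hbD hlb),
          List.getD_eq_getElem _ _ (by simpa using hlt)]
        exact List.getElem_mem _
      · rw [List.getD_eq_default _ _ (by omega)] at e
        omega
    have hT : ∀ c, D.length ≤ c → c < q →
        T c = T (frs D.length ((σ.set (D.idxOf a) 0).set (D.idxOf b) 0)) := by
      intro c hc hcq
      obtain ⟨d, hd⟩ : ∃ d, d = frs D.length ((σ.set (D.idxOf a) 0).set (D.idxOf b) 0) :=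
        ⟨_, rfl⟩
      rw [← hd] at hfr hfresh ⊢
      have hdq : d < q := lt_of_lt_of_le hfr.1 hq
      have hS : ∀ l, l ≠ a → l ≠ b →
          (Sof D q σ l ⟨c, hcq⟩ ↔ Sof D q σ l ⟨d, hdq⟩) := by
        intro l hla hlb
        have h1 := hfresh l hla hlb
        have h2 := StOk_getD hσ (D.idxOf l)
        unfold Sof cod
        simp only
        omega
      have hon : ∀ e : Fin q, onc (⟨d, hdq⟩ : Fin q) (Equiv.swap ⟨c, hcq⟩ ⟨d, hdq⟩ e) ↔
          onc (⟨c, hcq⟩ : Fin q) e := by
        intro e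
        unfold onc
        rw [Equiv.swap_apply_eq_iff, Equiv.swap_apply_right]
      have hno : ∀ e : Fin q, (noc : Fin q → Prop) (Equiv.swap ⟨c, hcq⟩ ⟨d, hdq⟩ e) ↔
          (noc : Fin q → Prop) e := fun e => Iff.rfl
      have c2 : (fun e : Fin q => cod (c + 2) (e : ℕ)) = onc ⟨c, hcq⟩ := cod_succ ⟨c, hcq⟩
      have d2 : (fun e : Fin q => cod (d + 2) (e : ℕ)) = onc ⟨d, hdq⟩ := cod_succ ⟨d, hdq⟩
      rw [hTd, hTd]
      simp only [hF, cod_zero, c2, d2]
      rw [swap_colors hP t _ _ a b ⟨c, hcq⟩ ⟨d, hdq⟩ onc onc hS hon hon hab,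
        swap_colors hP t _ _ a b ⟨c, hcq⟩ ⟨d, hdq⟩ onc (fun _ => noc) hS hon hno hab,
        swap_colors hP t _ _ a b ⟨c, hcq⟩ ⟨d, hdq⟩ (fun _ => noc) onc hS hno hon hab]
    have hsum := cols_sum D.length q (σ.getD (D.idxOf a) 0) (σ.getD (D.idxOf b) 0)
      (frs D.length ((σ.set (D.idxOf a) 0).set (D.idxOf b) 0)) hq hx hy T
      (fun _ _ => hfr.1) (fun _ _ => hT)
    have hJ' := hJ q a b t (Sof D q σ) X hab
    have hmain : ((W D X q t ((σ.set (D.idxOf a) 0).set (D.idxOf b) (σ.getD (D.idxOf b) 0)) : ℕ) : ℤ)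
        + (W D X q t ((σ.set (D.idxOf a) (σ.getD (D.idxOf a) 0)).set (D.idxOf b) 0) : ℕ)
        - (W D X q t ((σ.set (D.idxOf a) 0).set (D.idxOf b) 0) : ℕ)
        + ((cols D.length q (σ.getD (D.idxOf a) 0) (σ.getD (D.idxOf b) 0)
          (frs D.length ((σ.set (D.idxOf a) 0).set (D.idxOf b) 0))).map fun c => (c.2 : ℤ) *
          (((W D X q t ((σ.set (D.idxOf a) (c.1 + 2)).set (D.idxOf b) (c.1 + 2)) : ℕ) : ℤ)
          - (W D X q t ((σ.set (D.idxOf a) (c.1 + 2)).set (D.idxOf b) 0) : ℕ)
          - (W D X q t ((σ.set (D.idxOf a) 0).set (D.idxOf b) (c.1 + 2)) : ℕ)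
          + (W D X q t ((σ.set (D.idxOf a) 0).set (D.idxOf b) 0) : ℕ))).sum =
        Zt (KExp.join a b t) (Sof D q σ) X := by
      have hl2 : (cols D.length q (σ.getD (D.idxOf a) 0) (σ.getD (D.idxOf b) 0)
          (frs D.length ((σ.set (D.idxOf a) 0).set (D.idxOf b) 0))).map (fun c => (c.2 : ℤ) *
          (((W D X q t ((σ.set (D.idxOf a) (c.1 + 2)).set (D.idxOf b) (c.1 + 2)) : ℕ) : ℤ)
          - (W D X q t ((σ.set (D.idxOf a) (c.1 + 2)).set (D.idxOf b) 0) : ℕ)
          - (W D X q t ((σ.set (D.idxOf a) 0).set (D.idxOf b) (c.1 + 2)) : ℕ)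
          + (W D X q t ((σ.set (D.idxOf a) 0).set (D.idxOf b) 0) : ℕ))) =
          (cols D.length q (σ.getD (D.idxOf a) 0) (σ.getD (D.idxOf b) 0)
          (frs D.length ((σ.set (D.idxOf a) 0).set (D.idxOf b) 0))).map
            (fun c => (c.2 : ℤ) * T c.1) := by
        refine List.map_congr_left fun c hc => ?_
        have hc1 := cols_mem hx hy hc
        rw [IH _ _ (by omega) (by omega), IH _ _ (by omega) (by omega),
          IH _ _ (by omega) (by omega), IH _ _ (by omega) (by omega), hTd]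
        simp only [hF]
      rw [hl2, ← hsum, IH _ _ (by omega) hy, IH _ _ hx (by omega), IH _ _ (by omega) (by omega),
        hJ']
      have e1 : (fun c : Fin q => cod (σ.getD (D.idxOf a) 0) (c : ℕ)) = Sof D q σ a := rfl
      have e2 : (fun c : Fin q => cod (σ.getD (D.idxOf b) 0) (c : ℕ)) = Sof D q σ b := rfl
      rw [e1, e2, cod_zero]
      congr 1
      refine Finset.sum_congr rfl fun c _ => ?_
      have e3 : (cod (σ.getD (D.idxOf a) 0) (c : ℕ) ∧ cod (σ.getD (D.idxOf b) 0) (c : ℕ)) ↔
          (Sof D q σ a c ∧ Sof D q σ b c) := Iff.rfl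
      by_cases hc : Sof D q σ a c ∧ Sof D q σ b c
      · rw [if_pos (e3.2 hc), if_pos hc, hTd]
        simp only [hF, cod_zero, cod_succ]
      · rw [if_neg (fun h => hc (e3.1 h)), if_neg hc]
    unfold W jv
    rw [jn_cast _ _ _ _ (by
      show 0 ≤ _
      rw [hmain]
      exact Zt_nonneg _ _ _)]
    exact hmain.trans hJ'

end Pool.Agent.H578.SPWZ
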